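import Mathlib
import Pool.Agent.W332.Kd.Thr2
import Pool.Agent.W332.Kd.Wr

set_option autoImplicit false

/-!
# Cayley graphs of abelian groups and factors (MP_257582_lc)

Symmetric connection sets, regular spanning subgraphs of odd degree of Cayley graphs, and the
relation for regular cyclic groups of even order.
-/

namespace Pool.Agent.V11283.FK

open Finset
open Pool.Agent.W332.Kd Pool.Agent.H119R2.Kp

section Sym

variable {A : Type} [AddCommGroup A]

/-- the elements of odd order -/
def oddSub (A : Type) [AddCommGroup A] : AddSubgroup A where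
  carrier := {x | ∃ N : ℕ, Odd N ∧ N • x = 0}
  zero_mem' := ⟨1, odd_one, by simp⟩
  add_mem' := by
    rintro x y ⟨N, hN, hx⟩ ⟨M, hM, hy⟩
    refine ⟨N * M, hN.mul hM, ?_⟩
    rw [smul_add, mul_nsmul, hx, mul_comm, mul_nsmul, hy]
    simp
  neg_mem' := by
    rintro x ⟨N, hN, hx⟩
    exact ⟨N, hN, by rw [smul_neg, hx, neg_zero]⟩

theorem mem_oddSub (x : A) : x ∈ oddSub A ↔ ∃ N : ℕ, Odd N ∧ N • x = 0 := Iff.rfl

/-- an element of odd order is not an involution -/
theorem not_inv {x : A} (hx : x ∈ oddSub A) (hx0 : x ≠ 0) : -x ≠ x := by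
  intro h
  obtain ⟨N, hN, hN'⟩ := (mem_oddSub x).1 hx
  have h2 : 2 • x = 0 := by
    rw [two_nsmul]
    nth_rewrite 1 [← h]
    exact neg_add_cancel x
  obtain ⟨r, rfl⟩ := hN
  rw [add_nsmul, one_nsmul, mul_comm, mul_nsmul', h2, smul_zero, zero_add] at hN'
  exact hx0 hN'

/-- a symmetric set of odd size contains an element of order two -/
theorem exists_inv [DecidableEq A] {S : Finset A} (hS : Sy S) (ho : Odd S.card) :
    ∃ a ∈ S, -a = a := by
  by_contra hcon
  push Not at hcon
  have h1 : ∑ _x ∈ S, (1 : ZMod 2) = 0 := by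
    refine Finset.sum_involution (fun a _ => -a) ?_ ?_ ?_ ?_
    · intro a _
      decide
    · intro a ha _
      exact hcon a ha
    · intro a ha
      exact hS.neg a ha
    · intro a _
      exact neg_neg a
  rw [Finset.sum_const, nsmul_eq_mul, mul_one, ZMod.natCast_eq_zero_iff] at h1
  obtain ⟨r, hr⟩ := ho
  omega

theorem sy_erase2 [DecidableEq A] {S : Finset A} (hS : Sy S) (a : A) :
    Sy ((S.erase a).erase (-a)) := by
  refine ⟨fun h => hS.zero (mem_of_mem_erase (mem_of_mem_erase h)), ?_⟩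
  intro b hb
  rw [mem_erase, mem_erase] at hb ⊢
  obtain ⟨h1, h2, h3⟩ := hb
  refine ⟨fun h => h2 (neg_injective h), fun h => h1 ?_, hS.neg b h3⟩
  rw [← h, neg_neg]

theorem sy_insert2 [DecidableEq A] {S : Finset A} (hS : Sy S) {a : A} (ha : a ≠ 0) :
    Sy (insert a (insert (-a) S)) := by
  constructor
  · rw [mem_insert, mem_insert]
    rintro (h | h | h)
    · exact ha h.symm
    · exact ha (neg_eq_zero.1 h.symm)
    · exact hS.zero h
  · intro b
    rw [mem_insert, mem_insert, mem_insert, mem_insert]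
    rintro (rfl | rfl | h)
    · exact Or.inr (Or.inl rfl)
    · exact Or.inl (neg_neg a)
    · exact Or.inr (Or.inr (hS.neg b h))

theorem down [DecidableEq A] (k : ℕ) : ∀ (N : ℕ) (S : Finset A), S.card = N → Sy S → k ≤ N →
    ∃ S' : Finset A, S' ⊆ S ∧ Sy S' ∧ (S'.card = k ∨ (Odd k ∧ S'.card = k + 1)) := by
  intro N
  induction N using Nat.strong_induction_on with
  | _ N ih =>
    intro S hN hS hk
    rcases Nat.lt_or_ge N (k + 2) with h | h
    · rcases Nat.lt_or_ge k N with h1 | h1
      · have h2 : N = k + 1 := by omega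
        rcases Nat.even_or_odd k with he | ho
        · obtain ⟨a, ha, hinv⟩ := exists_inv hS (by rw [hN, h2]; exact he.add_one)
          refine ⟨S.erase a, erase_subset _ _, ?_, Or.inl ?_⟩
          · refine ⟨fun h => hS.zero (mem_of_mem_erase h), ?_⟩
            intro b hb
            rw [mem_erase] at hb ⊢
            refine ⟨fun h => hb.1 ?_, hS.neg b hb.2⟩
            rw [← neg_neg b, h, hinv]
          · rw [card_erase_of_mem ha, hN, h2]
            rfl
        · exact ⟨S, Subset.refl _, hS, Or.inr ⟨ho, by omega⟩⟩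
      · exact ⟨S, Subset.refl _, hS, Or.inl (by omega)⟩
    · have hne : S.Nonempty := by
        rw [← card_pos]
        omega
      obtain ⟨a, ha⟩ := hne
      have h1 : (S.erase a).card = N - 1 := by rw [card_erase_of_mem ha, hN]
      have h2 : N - 2 ≤ ((S.erase a).erase (-a)).card := by
        have := pred_card_le_card_erase (s := S.erase a) (a := -a)
        omega
      have h3 : ((S.erase a).erase (-a)).card ≤ N - 1 := by
        rw [← h1]
        exact card_le_card (erase_subset _ _)
      obtain ⟨S', h4, h5, h6⟩ := ih _ (by omega) _ rfl (sy_erase2 hS a) (by omega)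
      exact ⟨S', h4.trans ((erase_subset _ _).trans (erase_subset _ _)), h5, h6⟩

theorem sy_compl [DecidableEq A] [Fintype A] {T : Finset A} (hT : Sy T) :
    Sy (univ \ insert (0 : A) T) := by
  constructor
  · rw [mem_sdiff]
    exact fun h => h.2 (mem_insert_self _ _)
  · intro b hb
    rw [mem_sdiff, mem_insert, not_or] at hb ⊢
    refine ⟨mem_univ _, fun h => hb.2.1 (neg_eq_zero.1 h), fun h => hb.2.2 ?_⟩
    have := hT.neg _ h
    rwa [neg_neg] at this

theorem card_compl [DecidableEq A] [Fintype A] {T : Finset A} (hT : Sy T) :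
    (univ \ insert (0 : A) T).card + T.card + 1 = Fintype.card A := by
  have h1 := Finset.card_sdiff_add_card_eq_card (Finset.subset_univ (insert (0 : A) T))
  rw [card_insert_of_notMem hT.zero, card_univ] at h1
  omega

/-- a symmetric set of size less than `k` is contained in one of size `k - 1`, or, if the order of
the group minus `k` is odd, of size `k - 1` or `k - 2` -/
theorem up [DecidableEq A] [Fintype A] (k : ℕ) (hk : k < Fintype.card A) (S : Finset A)
    (hS : Sy S) (hlt : S.card < k) :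
    ∃ S' : Finset A, S ⊆ S' ∧ Sy S' ∧
      (S'.card + 1 = k ∨ (Odd (Fintype.card A - k) ∧ S'.card + 2 = k)) := by
  have h0 := card_compl hS
  obtain ⟨T', h1, h2, h3⟩ := down (Fintype.card A - k) _ (univ \ insert (0 : A) S) rfl
    (sy_compl hS) (by omega)
  have h4 := card_compl h2
  refine ⟨univ \ insert (0 : A) T', ?_, sy_compl h2, ?_⟩
  · intro x hx
    rw [mem_sdiff, mem_insert, not_or]
    refine ⟨mem_univ _, ?_, ?_⟩
    · rintro rfl
      exact hS.zero hx
    · intro h
      have h5 := h1 h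
      rw [mem_sdiff, mem_insert, not_or] at h5
      exact h5.2.2 hx
  · rcases h3 with h3 | ⟨h3, h5⟩
    · left
      omega
    · right
      exact ⟨h3, by omega⟩

/-! ### elements of even order and perfect matchings -/

theorem oddSub_card [Fintype A] : Odd (Nat.card (oddSub A)) := by
  by_contra hcon
  rw [Nat.not_odd_iff_even] at hcon
  have : Fact (Nat.Prime 2) := ⟨Nat.prime_two⟩
  obtain ⟨x, hx⟩ := exists_prime_addOrderOf_dvd_card' (G := oddSub A) 2 hcon.two_dvd
  obtain ⟨N, hN, hN'⟩ := (mem_oddSub (x : A)).1 x.2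
  have h1 : N • x = 0 := by
    apply Subtype.ext
    simpa using hN'
  have h2 := addOrderOf_dvd_of_nsmul_eq_zero h1
  rw [hx] at h2
  obtain ⟨r, hr⟩ := hN
  omega

theorem exists_even [DecidableEq A] [Fintype A] {S : Finset A} (hS : Sy S) {k : ℕ}
    (hk : k ≤ S.card) (hq : ∀ q : ℕ, Odd q → q ∣ Fintype.card A → q ≤ k) :
    ∃ s ∈ S, s ∉ oddSub A := by
  by_contra hcon
  push Not at hcon
  have h1 : Nat.card (oddSub A) ≤ k := by
    apply hq _ oddSub_card
    rw [← Nat.card_eq_fintype_card]
    exact AddSubgroup.card_addSubgroup_dvd_card _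
  have h2 : ((insert (0 : A) S : Finset A) : Set A).ncard ≤ (oddSub A : Set A).ncard := by
    apply Set.ncard_le_ncard _ (Set.toFinite _)
    intro x hx
    rw [mem_coe, mem_insert] at hx
    rcases hx with rfl | hx
    · exact (oddSub A).zero_mem
    · exact hcon x hx
  rw [Set.ncard_coe_finset, card_insert_of_notMem hS.zero] at h2
  have h3 : (oddSub A : Set A).ncard = Nat.card (oddSub A) := rfl
  omega

theorem exists_chi {s : A} (hs : s ∉ oddSub A) :
    ∃ χ : A → ZMod 2, ∀ x, χ (x + s) = χ x + 1 := by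
  have h1 : ∀ x : A, ∃ j : ℤ,
      j • s = ((x : A ⧸ AddSubgroup.zmultiples s)).out - x := by
    intro x
    obtain ⟨h, hh⟩ := QuotientAddGroup.mk_out_eq_add (AddSubgroup.zmultiples s) x
    obtain ⟨j, hj⟩ := AddSubgroup.mem_zmultiples_iff.1 h.2
    refine ⟨j, ?_⟩
    rw [hh, hj]
    abel
  choose j hj using h1
  refine ⟨fun x => (j x : ZMod 2), ?_⟩
  intro x
  have h2 : ((x + s : A) : A ⧸ AddSubgroup.zmultiples s) = (x : A ⧸ AddSubgroup.zmultiples s) := by
    rw [QuotientAddGroup.eq]
    have : -(x + s) + x = -s := by abel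
    rw [this]
    exact (AddSubgroup.zmultiples s).neg_mem (AddSubgroup.mem_zmultiples s)
  have h3 : (j (x + s) - j x + 1) • s = 0 := by
    rw [add_smul, sub_smul, hj, hj, h2, one_smul]
    abel
  have h4 : Even (j (x + s) - j x + 1) := by
    by_contra hcon
    rw [Int.not_even_iff_odd] at hcon
    apply hs
    refine ⟨(j (x + s) - j x + 1).natAbs, Int.natAbs_odd.2 hcon, ?_⟩
    rcases Int.natAbs_eq (j (x + s) - j x + 1) with h | h
    · rw [h, natCast_zsmul] at h3
      exact h3
    · rw [h, neg_smul, natCast_zsmul, neg_eq_zero] at h3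
      exact h3
  have h5 : ((j (x + s) - j x + 1 : ℤ) : ZMod 2) = 0 := by
    rw [ZMod.intCast_zmod_eq_zero_iff_dvd]
    exact_mod_cast h4.two_dvd
  push_cast at h5
  have h6 : ((j (x + s) : ℤ) : ZMod 2) = (j x : ZMod 2) - 1 := by
    linear_combination h5
  change ((j (x + s) : ℤ) : ZMod 2) = (j x : ZMod 2) + 1
  rw [h6]
  generalize (j x : ZMod 2) = z
  revert z
  decide

/-- every second edge of the cycles of `s` -/
def mtch (s : A) (χ : A → ZMod 2) : SimpleGraph A where
  Adj x y := x ≠ y ∧ ((y = x + s ∧ χ x = 0) ∨ (x = y + s ∧ χ y = 0))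
  symm := ⟨fun _ _ h => ⟨h.1.symm, h.2.symm⟩⟩
  loopless := ⟨fun _ h => h.1 rfl⟩

theorem mtch_adj {s : A} (hs : s ≠ 0) {χ : A → ZMod 2} (hχ : ∀ x, χ (x + s) = χ x + 1) (v x : A) :
    (mtch s χ).Adj v x ↔ x = if χ v = 0 then v + s else v - s := by
  change v ≠ x ∧ ((x = v + s ∧ χ v = 0) ∨ (v = x + s ∧ χ x = 0)) ↔ _
  by_cases h : χ v = 0
  · rw [if_pos h]
    constructor
    · rintro ⟨-, ⟨h2, -⟩ | ⟨h2, h3⟩⟩
      · exact h2
      · exfalso
        rw [h2, hχ, h3] at h
        revert h
        decide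
    · intro h2
      refine ⟨?_, Or.inl ⟨h2, h⟩⟩
      rintro rfl
      exact hs (by simpa using h2)
  · rw [if_neg h]
    constructor
    · rintro ⟨-, ⟨-, h3⟩ | ⟨h2, h3⟩⟩
      · exact absurd h3 h
      · rw [h2]
        abel
    · intro h2
      have h5 : v = x + s := by rw [h2]; abel
      refine ⟨?_, Or.inr ⟨h5, ?_⟩⟩
      · rintro rfl
        exact hs (by simpa using h5)
      · have h6 := hχ x
        rw [← h5] at h6
        generalize χ x = z at h6 ⊢
        generalize χ v = w at h6 h
        revert z w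
        decide

theorem odd_case [DecidableEq A] [Finite A] {S : Finset A} (hS : Sy S) {k : ℕ} (hko : Odd k)
    (hk : k ≤ S.card) (hq : ∃ s ∈ S, s ∉ oddSub A) :
    ∃ F : SimpleGraph A, F ≤ cay S ∧ Reg F k := by
  obtain ⟨r, hr⟩ := hko
  by_cases hinv : ∃ a ∈ S, -a = a
  · obtain ⟨a, ha, ha'⟩ := hinv
    have h1 : Sy (S.erase a) := by
      refine ⟨fun h => hS.zero (mem_of_mem_erase h), ?_⟩
      intro b hb
      rw [mem_erase] at hb ⊢
      refine ⟨fun h => hb.1 ?_, hS.neg b hb.2⟩
      rw [← neg_neg b, h, ha']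
    obtain ⟨S', h2, h3, h4⟩ := down (k - 1) _ (S.erase a) rfl h1 (by
      rw [card_erase_of_mem ha]
      omega)
    have h5 : S'.card = k - 1 := by
      rcases h4 with h4 | ⟨⟨r', hr'⟩, h4⟩
      · exact h4
      · omega
    have h6 : a ∉ S' := fun h => absurd (h2 h) (notMem_erase a S)
    have h7 : Sy (insert a S') := by
      constructor
      · rw [mem_insert]
        rintro (h | h)
        · rw [← h] at ha
          exact hS.zero ha
        · exact h3.zero h
      · intro b
        rw [mem_insert, mem_insert]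
        rintro (rfl | h)
        · exact Or.inl ha'
        · exact Or.inr (h3.neg b h)
    refine ⟨cay (insert a S'), cay_mono ?_, ?_⟩
    · rw [insert_subset_iff]
      exact ⟨ha, h2.trans (erase_subset _ _)⟩
    · have h8 := cay_Reg h7
      rw [card_insert_of_notMem h6, h5] at h8
      have h9 : k - 1 + 1 = k := by omega
      rwa [h9] at h8
  · obtain ⟨s, hs, hs'⟩ := hq
    obtain ⟨χ, hχ⟩ := exists_chi hs'
    have hs0 : s ≠ 0 := by
      rintro rfl
      exact hS.zero hs
    have hev : ¬ Odd S.card := fun h => hinv (exists_inv hS h)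
    have h1 : S.card - 2 ≤ ((S.erase s).erase (-s)).card := by
      have h2 := pred_card_le_card_erase (s := S.erase s) (a := -s)
      rw [card_erase_of_mem hs] at h2
      omega
    have h2 : k + 1 ≤ S.card := by
      rcases Nat.lt_or_ge k S.card with h | h
      · exact h
      · exact absurd ⟨r, by omega⟩ hev
    obtain ⟨S', h3, h4, h5⟩ := down (k - 1) _ ((S.erase s).erase (-s)) rfl (sy_erase2 hS s)
      (by omega)
    have h6 : S'.card = k - 1 := by
      rcases h5 with h5 | ⟨⟨r', hr'⟩, h5⟩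
      · exact h5
      · omega
    have h7 : -s ∉ S' := fun h => absurd (h3 h) (notMem_erase _ _)
    have h8 : s ∉ S' := fun h => absurd (mem_of_mem_erase (h3 h)) (notMem_erase _ _)
    refine ⟨cay S' ⊔ mtch s χ, sup_le (cay_mono ?_) ?_, ?_⟩
    · exact h3.trans ((erase_subset _ _).trans (erase_subset _ _))
    · intro x y hxy
      rw [cay_adj hS]
      rw [mtch_adj hs0 hχ] at hxy
      rw [hxy]
      split_ifs
      · have : x + s - x = s := by abel
        rw [this]
        exact hs
      · have : x - s - x = -s := by abel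
        rw [this]
        exact hS.neg _ hs
    · intro v
      set w : A := if χ v = 0 then v + s else v - s with hw
      have h9 : (cay S' ⊔ mtch s χ).neighborSet v = insert w ((cay S').neighborSet v) := by
        ext x
        rw [SimpleGraph.mem_neighborSet, SimpleGraph.sup_adj, mtch_adj hs0 hχ, Set.mem_insert_iff,
          SimpleGraph.mem_neighborSet, or_comm]
      have h10 : w ∉ (cay S').neighborSet v := by
        rw [SimpleGraph.mem_neighborSet, cay_adj h4, hw]
        split_ifs
        · have : v + s - v = s := by abel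
          rw [this]
          exact h8
        · have : v - s - v = -s := by abel
          rw [this]
          exact h7
      rw [h9, Set.ncard_insert_of_notMem h10 (Set.toFinite _), cay_Reg h4, h6]
      omega

end Sym

/-- Relation for a regular abelian group. -/
theorem regular' {n : ℕ} {P : SimpleGraph (Fin n) → Prop} (hn : 2 ≤ n)
    (hP : GP n (n.choose 2 - 1) P) {A : Type} [AddCommGroup A] [Fintype A]
    [DecidableEq A] (hA : Fintype.card A = n) (p : ℕ) [Fact p.Prime] {ι : Type} [Fintype ι]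
    (a : ι → A) (c : A) (hpa : ∀ i, p • a i = 0)
    (hgen : ∀ x : A, trl x ∈ Subgroup.closure (insert (trl c) (Set.range fun i => trl (a i))))
    (Q : Finset (Rp A) → Prop) [DecidablePred Q]
    (hQ : ∀ I, Q I ↔ PV P A (cay (I.biUnion fun j : Rp A => pr j.1))) :
    ∑ I : Finset (Rp A), (-1 : ℤ) ^ I.card * (if Q I then 1 else 0) = 0 := by
  have key := relC hn hP hA p (fun i => trl (a i)) (trl c) (by
    intro i j
    rw [← trl_add, ← trl_add, add_comm]) (by
    intro i
    rw [← trl_nsmul, hpa, trl_zero]) (by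
    intro i
    have : (trl c)⁻¹ * trl (a i) * trl c = trl (a i) := by
      rw [mul_assoc, ← trl_add, add_comm, trl_add, inv_mul_cancel_left]
    rw [this]
    exact Subgroup.subset_closure ⟨i, rfl⟩) (fun j : Rp A => pr j.1) part_pr (by
    intro j i u v h
    change (v + a i) - (u + a i) ∈ _
    rwa [add_sub_add_right_eq_sub]) (by
    intro j u v h
    change (v + c) - (u + c) ∈ _
    rwa [add_sub_add_right_eq_sub]) (by
    intro j u v u' v' h h'
    rw [mem_pr] at h h'
    have hcase : v' - u' = v - u ∨ v' - u' = -(v - u) := by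
      rcases h with h | h <;> rcases h' with h' | h' <;> rw [h, h']
      · exact Or.inl rfl
      · exact Or.inr rfl
      · exact Or.inr (neg_neg _).symm
      · exact Or.inl rfl
    rcases hcase with h1 | h1
    · refine ⟨trl (u' - u), hgen _, Or.inl ⟨?_, ?_⟩⟩
      · change u + (u' - u) = u'
        abel
      · change v + (u' - u) = v'
        have : v' = (v' - u') + u' := by abel
        rw [this, h1]
        abel
    · refine ⟨trl (v' - u), hgen _, Or.inr ⟨?_, ?_⟩⟩
      · change u + (v' - u) = v'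
        abel
      · change v + (v' - u) = u'
        have : v' = (v' - u') + u' := by abel
        rw [this, h1]
        abel)
  refine Eq.trans (Finset.sum_congr rfl fun I _ => ?_) key
  by_cases h : Q I
  · rw [if_pos h, if_pos ((hQ I).1 h)]
  · rw [if_neg h, if_neg (fun h' => h ((hQ I).2 h'))]

theorem Zsum (M : ℕ) : ∀ r : ℕ, ∑ m ∈ range (M + 2),
    ((M + 1).choose m : ℤ) * ((-1 : ℤ) ^ m * (if r + 1 ≤ m then 1 else 0)) =
      (-1) ^ (r + 1) * (M.choose r : ℤ) := by
  intro r
  induction r with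
  | zero =>
    have h1 := Int.alternating_sum_range_choose_of_ne (n := M + 1) (by omega)
    have h3 : (if 0 + 1 ≤ 0 then (1 : ℤ) else 0) = 0 := if_neg (by omega)
    rw [Finset.sum_range_succ'] at h1 ⊢
    rw [h3]
    simp only [zero_add, Nat.le_add_left, if_true, Nat.choose_zero_right, mul_one, pow_zero,
      Nat.cast_one, mul_zero, add_zero, pow_one] at h1 ⊢
    have h2 : ∑ x ∈ range (M + 1), ((M + 1).choose (x + 1) : ℤ) * (-1) ^ (x + 1) =
        ∑ x ∈ range (M + 1), (-1) ^ (x + 1) * ((M + 1).choose (x + 1) : ℤ) :=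
      Finset.sum_congr rfl fun x _ => mul_comm _ _
    rw [h2]
    linarith
  | succ r ih =>
    have h1 : ∀ m ∈ range (M + 2), ((M + 1).choose m : ℤ) * ((-1 : ℤ) ^ m *
        (if r + 1 + 1 ≤ m then 1 else 0)) = ((M + 1).choose m : ℤ) * ((-1 : ℤ) ^ m *
        (if r + 1 ≤ m then 1 else 0)) - (if m = r + 1 then
          ((M + 1).choose (r + 1) : ℤ) * (-1 : ℤ) ^ (r + 1) else 0) := by
      intro m _
      rcases lt_trichotomy m (r + 1) with h | h | h
      · rw [if_neg (by omega), if_neg (by omega), if_neg (by omega)]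
        ring
      · rw [if_neg (by omega), if_pos (by omega), if_pos h, h]
        ring
      · rw [if_pos (by omega), if_pos (by omega), if_neg (by omega)]
        ring
    rw [Finset.sum_congr rfl h1, Finset.sum_sub_distrib, ih, Finset.sum_ite_eq']
    have h2 : (if r + 1 ∈ range (M + 2) then ((M + 1).choose (r + 1) : ℤ) * (-1 : ℤ) ^ (r + 1)
        else 0) = ((M + 1).choose (r + 1) : ℤ) * (-1 : ℤ) ^ (r + 1) := by
      split_ifs with h
      · rfl
      · rw [mem_range] at h
        rw [Nat.choose_eq_zero_of_lt (by omega)]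
        simp
    rw [h2, Nat.choose_succ_succ]
    push_cast
    ring

open Polynomial in
/-- The relation for regular cyclic groups of even order contradicts the values of a property with
odd threshold degree that fails for the Cayley graphs with components of odd order. -/
theorem odd_rel {n r : ℕ} {P : SimpleGraph (Fin n) → Prop} [NeZero n] (hne : Even n) (hr : 1 ≤ r)
    (hrn : 2 * r + 1 < n) (hP : GP n (n.choose 2 - 1) P)
    (hdeg : ∀ S : Finset (ZMod n), Sy S →
      (PV P (ZMod n) (cay S) ↔ 2 * r + 1 ≤ S.card ∧ ∃ s ∈ S, s ∉ oddSub (ZMod n))) : False := by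
  have : Fact (Nat.Prime 2) := ⟨Nat.prime_two⟩
  obtain ⟨N, hN⟩ : ∃ k, n = 2 * k + 2 := by
    obtain ⟨j, hj⟩ := hne
    exact ⟨j - 1, by omega⟩
  have hinv : inv (ZMod n) = 1 := by
    have := inv_add_one (ZMod n)
    rw [tor_even hne] at this
    omega
  obtain ⟨k', hk', h1, h2⟩ := Rp_count (A := ZMod n)
  obtain ⟨k'', hk'', hprod⟩ := prod_pr (A := ZMod n)
  rw [ZMod.card, hinv] at hk' hk''
  have e1 : k' = N := by omega
  have e2 : k'' = N := by omega
  subst e1
  rw [e2, hinv, pow_one] at hprod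
  have hcard : ∀ I : Finset (Rp (ZMod n)), (I.biUnion fun j : Rp (ZMod n) => pr j.1).card =
      ∑ j ∈ I, (pr j.1).card := by
    intro I
    rw [Finset.card_biUnion]
    intro i _ j _ hij
    exact part_pr.disj i j hij
  classical
  set J : Finset (Rp (ZMod n)) := univ.filter fun j => j.1 ∈ oddSub (ZMod n) with hJ
  have hJ2 : ∀ j ∈ J, (pr j.1).card = 2 := by
    intro j hj
    rw [hJ, mem_filter] at hj
    rw [card_pr, if_neg (not_inv hj.2 ((mem_Rp _).1 j.2).1)]
  have hJcard : J.card ≤ k' := by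
    rw [← h1]
    apply card_le_card
    intro j hj
    rw [hJ, mem_filter] at hj
    rw [mem_filter]
    exact ⟨mem_univ _, not_inv hj.2 ((mem_Rp _).1 j.2).1⟩
  have key := regular' (by omega) hP (A := ZMod n) (ZMod.card n) 2 (ι := Empty) (fun i => i.elim) 1
    (fun i => i.elim) (gen_cyc _)
    (fun I => 2 * r + 1 ≤ ∑ j ∈ I, (pr j.1).card ∧ ¬ I ⊆ J) (by
      intro I
      rw [hdeg _ (part_pr.sy_biUnion I), hcard]
      refine and_congr_right fun _ => ?_
      rw [Finset.not_subset]
      constructor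
      · rintro ⟨j, hj, hj'⟩
        refine ⟨j.1, mem_biUnion.2 ⟨j, hj, (mem_pr _ _).2 (Or.inl rfl)⟩, ?_⟩
        intro h
        exact hj' (by rw [hJ, mem_filter]; exact ⟨mem_univ _, h⟩)
      · rintro ⟨s, hs, hs'⟩
        obtain ⟨j, hj, hj'⟩ := mem_biUnion.1 hs
        refine ⟨j, hj, fun h => hs' ?_⟩
        rw [hJ, mem_filter] at h
        rcases (mem_pr _ _).1 hj' with h3 | h3
        · rw [h3]
          exact h.2
        · rw [h3]
          exact (oddSub (ZMod n)).neg_mem h.2)
  have h0 : Nonempty (Rp (ZMod n)) := by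
    obtain ⟨j, _⟩ := cover_pr (A := ZMod n) 1 (by
      intro h
      have h4 : ((1 : ℕ) : ZMod n) = 0 := by simpa using h
      exact cast_eq_zero_lt (n := n) (j := 1) (by omega) (by omega) h4)
    exact ⟨j⟩
  have htot : ∑ I : Finset (Rp (ZMod n)), (-1 : ℤ) ^ I.card = 0 := by
    have := Finset.sum_powerset_neg_one_pow_card (x := (univ : Finset (Rp (ZMod n))))
    rw [if_neg (Finset.univ_nonempty.ne_empty), Finset.powerset_univ] at this
    exact this
  have hlow : ∑ I : Finset (Rp (ZMod n)), (-1 : ℤ) ^ I.card *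
      (if ∑ j ∈ I, (pr j.1).card < 2 * r + 1 then 1 else 0) = cf k' r := by
    rw [subset_sum (fun j : Rp (ZMod n) => (pr j.1).card) (2 * r + 1),
      sum_range_coeff _ ((1 - X ^ 2) ^ k') hprod, e2_even]
  have hJsum : ∑ I : Finset (Rp (ZMod n)), (-1 : ℤ) ^ I.card *
      (if 2 * r + 1 ≤ ∑ j ∈ I, (pr j.1).card ∧ I ⊆ J then 1 else 0) =
      ∑ m ∈ range (J.card + 1), (J.card.choose m : ℤ) * ((-1 : ℤ) ^ m *
        (if r + 1 ≤ m then 1 else 0)) := by
    have h3 := Finset.sum_powerset_apply_card
      (fun m => (-1 : ℤ) ^ m * (if r + 1 ≤ m then 1 else 0)) (x := J)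
    simp only [nsmul_eq_mul] at h3
    rw [← h3]
    rw [← Finset.sum_subset (Finset.subset_univ J.powerset)]
    · refine Finset.sum_congr rfl fun I hI => ?_
      rw [mem_powerset] at hI
      have h4 : ∑ j ∈ I, (pr j.1).card = 2 * I.card := by
        rw [Finset.sum_congr rfl fun j hj => hJ2 j (hI hj), sum_const, smul_eq_mul, mul_comm]
      rw [h4]
      congr 1
      by_cases h5 : r + 1 ≤ I.card
      · rw [if_pos h5, if_pos ⟨by omega, hI⟩]
      · rw [if_neg h5, if_neg (fun h6 => h5 (by omega))]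
    · intro I _ hI
      rw [mem_powerset] at hI
      rw [if_neg (fun h => hI h.2), mul_zero]
  have hall : ∑ I : Finset (Rp (ZMod n)), (-1 : ℤ) ^ I.card *
      (if 2 * r + 1 ≤ ∑ j ∈ I, (pr j.1).card ∧ ¬ I ⊆ J then 1 else 0) +
      ∑ I : Finset (Rp (ZMod n)), (-1 : ℤ) ^ I.card *
      (if ∑ j ∈ I, (pr j.1).card < 2 * r + 1 then 1 else 0) +
      ∑ I : Finset (Rp (ZMod n)), (-1 : ℤ) ^ I.card *
      (if 2 * r + 1 ≤ ∑ j ∈ I, (pr j.1).card ∧ I ⊆ J then 1 else 0) =
      ∑ I : Finset (Rp (ZMod n)), (-1 : ℤ) ^ I.card := by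
    rw [← Finset.sum_add_distrib, ← Finset.sum_add_distrib]
    refine Finset.sum_congr rfl fun I _ => ?_
    by_cases h3 : 2 * r + 1 ≤ ∑ j ∈ I, (pr j.1).card
    · by_cases h4 : I ⊆ J
      · rw [if_neg (fun h => h.2 h4), if_neg (not_lt.2 h3), if_pos ⟨h3, h4⟩]
        ring
      · rw [if_pos ⟨h3, h4⟩, if_neg (not_lt.2 h3), if_neg (fun h => h4 h.2)]
        ring
    · rw [if_neg (fun h => h3 h.1), if_pos (not_le.1 h3), if_neg (fun h => h3 h.1)]
      ring
  rw [hlow, hJsum, htot] at hall
  have key' : ∑ I : Finset (Rp (ZMod n)), (-1 : ℤ) ^ I.card *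
      (if 2 * r + 1 ≤ ∑ j ∈ I, (pr j.1).card ∧ ¬ I ⊆ J then 1 else 0) = 0 := by
    refine Eq.trans (Finset.sum_congr rfl fun I _ => ?_) key
    congr
  rw [key', zero_add] at hall
  rcases Nat.eq_zero_or_pos J.card with hM | hM
  · rw [hM] at hall
    have h3 : (if r + 1 ≤ 0 then (1 : ℤ) else 0) = 0 := if_neg (by omega)
    rw [zero_add, Finset.sum_range_one, h3, mul_zero, mul_zero, add_zero] at hall
    exact cf_ne (by omega) hall
  · obtain ⟨M, hM'⟩ : ∃ M, J.card = M + 1 := ⟨J.card - 1, by omega⟩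
    rw [hM', Zsum, cf_eq] at hall
    have h5 : (((-1 : ℤ) ^ k' * ((-1) ^ (k' - r) * (k'.choose r : ℤ)))).natAbs =
        ((-1 : ℤ) ^ (r + 1) * (M.choose r : ℤ)).natAbs := by
      rw [← Int.natAbs_neg]
      congr 1
      linarith
    have h6 : ∀ j : ℕ, ((-1 : ℤ) ^ j).natAbs = 1 := by
      intro j
      rw [Int.natAbs_pow]
      simp
    rw [Int.natAbs_mul, Int.natAbs_mul, Int.natAbs_mul, h6, h6, h6, one_mul, one_mul, one_mul,
      Int.natAbs_natCast, Int.natAbs_natCast] at h5
    obtain ⟨r', rfl⟩ : ∃ r', r = r' + 1 := ⟨r - 1, by omega⟩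
    obtain ⟨k1, rfl⟩ : ∃ k1, k' = k1 + 1 := ⟨k' - 1, by omega⟩
    have h7 : M.choose (r' + 1) ≤ k1.choose (r' + 1) := Nat.choose_le_choose _ (by omega)
    have h8 : 0 < k1.choose r' := Nat.choose_pos (by omega)
    rw [Nat.choose_succ_succ'] at h5
    omega

end Pool.Agent.V11283.FK
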